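import Pool.Agent.H131DG.Final

/-!
# Gap between the two largest distance multiplicities in the plane

`D n` is the maximum of `a₁(X) - a₂(X)` over all `n`-point subsets `X` of the Euclidean plane, where
`a₁(X) ≥ a₂(X) ≥ ...` are the multiplicities of the distinct distances of `X` in non-increasing
order.  We prove that `D n ≥ n ^ (1 + c / log log n)` for some constant `c > 0` and all large `n`.

Idea of the construction: take a large square grid `A`, rescaled such that its most frequent
distance is `1`, and a small disc `B` of the grid, rescaled such that the distance `√m` becomes `1`,
where `m` is a product of many distinct primes `≡ 1 (mod 4)`, coprime to the most frequent squared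
distance of `A`.  A generic rotated Minkowski sum `A + e B` has the distance `1` in common only, and
beats every other distance by `|A| |B| n ^ (c / log log n)`.  Generic translated copies of this set
and generic points are added to reach exactly `n` points.
-/

open Filter

namespace Pool.Agent.Results.MP_cf6fa9_co.GapLower

theorem result : ∃ c : ℝ, 0 < c ∧ ∀ᶠ n : ℕ in atTop,
    (n : ℝ) ^ (1 + c / Real.log (Real.log n)) ≤ (Pool.Agent.H131DG.D n : ℝ) :=
  Pool.Agent.H131DG.main

end Pool.Agent.Results.MP_cf6fa9_co.GapLower
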